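import Pool.Agent.W628.QI.Red

set_option autoImplicit false
open scoped ContDiff ComplexConjugate Real
open MeasureTheory Pool.Agent.W545.QI

namespace Pool.Agent.W628.QI

lemma q_smooth : ContDiff ℝ ∞ q := by
  unfold q
  fun_prop

lemma f_smooth : ContDiff ℝ ∞ f := by
  unfold f
  fun_prop

lemma per_cos (y : ℝ) (n : ℤ) : Real.cos (y + 2 * π * n) = Real.cos y := by
  rw [mul_comm (2 * π)]
  exact Real.cos_add_int_mul_two_pi y n

lemma per_sin (y : ℝ) (n : ℤ) : Real.sin (y + 2 * π * n) = Real.sin y := by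
  rw [mul_comm (2 * π)]
  exact Real.sin_add_int_mul_two_pi y n

lemma SP_V1 : SP V1 := by
  constructor
  · have h : ContDiff ℝ ∞ (fun x : ℝ × ℝ => Real.cos x.2 * q x.1) :=
      (Real.contDiff_cos.comp contDiff_snd).mul (q_smooth.comp contDiff_fst)
    exact Complex.ofRealCLM.contDiff.comp h
  · intro x n
    simp only [V1, q, per_cos, per_sin]

lemma SP_V2 : SP V2 := by
  constructor
  · have h : ContDiff ℝ ∞ (fun x : ℝ × ℝ => 2 * Real.sin x.2) :=
      contDiff_const.mul (Real.contDiff_sin.comp contDiff_snd)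
    exact Complex.ofRealCLM.contDiff.comp h
  · intro x n
    simp only [V2, per_sin]

lemma SP_kap : SP kap := by
  constructor
  · have h : ContDiff ℝ ∞ (fun x : ℝ × ℝ => Real.sin x.2 * f x.1) :=
      (Real.contDiff_sin.comp contDiff_snd).mul (f_smooth.comp contDiff_fst)
    exact Complex.ofRealCLM.contDiff.comp h
  · intro x n
    simp only [kap, f, per_cos, per_sin]

lemma contDiff_deriv {g : ℝ → ℝ} (h : ContDiff ℝ ∞ g) : ContDiff ℝ ∞ (deriv g) := by
  have := (contDiff_infty_iff_deriv.mp h).2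
  exact this

lemma D1V1 : D1 V1 = fun x => ((Real.cos x.2 * deriv q x.1 : ℝ) : ℂ) :=
  D1_prod Real.differentiable_cos (q_smooth.differentiable (by simp))

lemma D2V1 : D2 V1 = fun x => ((-(Real.sin x.2 * q x.1) : ℝ) : ℂ) := by
  have h := D2_prod (φ := Real.cos) (ψ := q) Real.differentiable_cos
    (q_smooth.differentiable (by simp))
  have e : V1 = fun x => ((Real.cos x.2 * q x.1 : ℝ) : ℂ) := rfl
  rw [e, h]
  funext x
  simp

lemma D1V2 : D1 V2 = fun _ => (0 : ℂ) := by
  have h := D1_prod (φ := fun y => 2 * Real.sin y) (ψ := fun _ => (1:ℝ)) (by fun_prop) (by fun_prop)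
  have e : V2 = fun x => (((2 * Real.sin x.2) * 1 : ℝ) : ℂ) := by
    funext x
    simp [V2]
  rw [e, h]
  funext x
  simp

lemma D2V2 : D2 V2 = fun x => ((2 * Real.cos x.2 : ℝ) : ℂ) := by
  have h := D2_prod (φ := fun y => 2 * Real.sin y) (ψ := fun _ => (1:ℝ)) (by fun_prop) (by fun_prop)
  have e : V2 = fun x => (((2 * Real.sin x.2) * 1 : ℝ) : ℂ) := by
    funext x
    simp [V2]
  rw [e, h]
  funext x
  have : deriv (fun y => 2 * Real.sin y) x.2 = 2 * Real.cos x.2 :=
    ((Real.hasDerivAt_sin x.2).const_mul 2).deriv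
  simp only [this, mul_one]

lemma D1kap : D1 kap = fun x => ((Real.sin x.2 * deriv f x.1 : ℝ) : ℂ) :=
  D1_prod Real.differentiable_sin (f_smooth.differentiable (by simp))

lemma conj_V1 (x : ℝ × ℝ) : conj (V1 x) = V1 x := Complex.conj_ofReal _
lemma conj_V2 (x : ℝ × ℝ) : conj (V2 x) = V2 x := Complex.conj_ofReal _
lemma conj_kap (x : ℝ × ℝ) : conj (kap x) = kap x := Complex.conj_ofReal _

section
variable {al be ga w1 w2 bc ec uc : ℝ × ℝ → ℂ}

/-- the divergence of `V` -/
noncomputable def del (x : ℝ × ℝ) : ℂ := D1 V1 x + D2 V2 x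

lemma SP_del : SP del := SP_add (SP_D1 SP_V1) (SP_D2 SP_V2)

lemma SP_cm (c : ℂ) {F : ℝ × ℝ → ℂ} (hF : SP F) : SP (fun x => c * F x) := SP_mul (SP_const c) hF
lemma SP_mc (c : ℂ) {F : ℝ × ℝ → ℂ} (hF : SP F) : SP (fun x => F x * c) := SP_mul hF (SP_const c)
lemma SP_neg {F : ℝ × ℝ → ℂ} (hF : SP F) : SP (fun x => -F x) := by
  have := SP_cm (-1) hF
  simpa using this
lemma SP_sub {F G : ℝ × ℝ → ℂ} (hF : SP F) (hG : SP G) : SP (fun x => F x - G x) := by
  have := SP_add hF (SP_neg hG)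
  simpa [sub_eq_add_neg] using this

lemma D1_neg {F : ℝ × ℝ → ℂ} (hF : ContDiff ℝ ∞ F) : D1 (fun x => -F x) = fun x => -D1 F x := by
  have := D1_mul (F := fun _ => (-1:ℂ)) contDiff_const hF
  rw [D1_const] at this
  simpa using this

lemma D2_neg {F : ℝ × ℝ → ℂ} (hF : ContDiff ℝ ∞ F) : D2 (fun x => -F x) = fun x => -D2 F x := by
  have := D2_mul (F := fun _ => (-1:ℂ)) contDiff_const hF
  rw [D2_const] at this
  simpa using this

lemma SP_d1 (h : SP al) (k : ℤ × ℤ) : SP (d1 al k) :=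
  SP_add (SP_add (SP_mc _ SP_V1) (SP_mc _ SP_V2)) h
lemma SP_dl (h1 : SP w1) (h2 : SP w2) (h : SP ga) (k : ℤ × ℤ) : SP (dl w1 w2 ga k) :=
  SP_add (SP_add (SP_mc _ h1) (SP_mc _ h2)) h
lemma SP_dq (h1 : SP bc) (h2 : SP ec) (h : SP uc) (k : ℤ × ℤ) : SP (dq bc ec uc k) :=
  SP_add (SP_add (SP_add (SP_mc _ SP_kap) (SP_mc _ h1)) (SP_mc _ h2)) h

lemma SP_zero : SP (fun _ : ℝ × ℝ => (0:ℂ)) := SP_const 0

lemma relA (hI : S_IBP) (hU : S_FU) (H : Rels al be ga w1 w2 bc ec uc) (x : ℝ × ℝ) :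
    conj (al x) = al x + Complex.I * del x := by
  have h := key hI hU (0, 0) (P := fun x => d1 al (0, 0) x - conj (al x)) (Q := fun x => -V1 x)
    (R := fun x => -V2 x) (S := fun _ => 0) (SP_sub (SP_d1 H.sal _) (SP_conj H.sal))
    (SP_neg SP_V1) (SP_neg SP_V2) SP_zero (by
      intro l
      refine Eq.trans ?_ (H.S1 (0, 0) l)
      congr 1
      funext x
      simp only [d1, map_add, map_mul, conj_V1, conj_V2, map_intCast]
      ring) x
  rw [D1_neg SP_V1.1, D2_neg SP_V2.1, D1_const, D1_const] at h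
  simp only [d1, del] at h ⊢
  push_cast at h
  linear_combination -h

lemma relB (hI : S_IBP) (hU : S_FU) (H : Rels al be ga w1 w2 bc ec uc) (x : ℝ × ℝ) :
    conj (be x) = be x := by
  have h := key hI hU (0, 0) (P := fun x => be x - conj (be x)) (Q := fun x => 0)
    (R := fun x => 0) (S := fun _ => 0) (SP_sub H.sbe (SP_conj H.sbe))
    SP_zero SP_zero SP_zero (by
      intro l
      refine Eq.trans ?_ (H.T1 (0, 0) l)
      congr 1
      funext x
      ring) x
  rw [D1_const, D2_const, D1_const] at h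
  push_cast at h
  linear_combination -h

lemma relC (hI : S_IBP) (hU : S_FU) (H : Rels al be ga w1 w2 bc ec uc) (k : ℤ × ℤ) (x : ℝ × ℝ) :
    w1 x * k.1 + w2 x * k.2 + ga x - conj (ga x) - k.1 * conj (w1 x) + Complex.I * conj (D1 w1 x)
      - k.2 * conj (w2 x) + Complex.I * conj (D2 w2 x) = 0 := by
  have h := key hI hU k (P := fun x => dl w1 w2 ga k x - conj (ga x)) (Q := fun x => -conj (w1 x))
    (R := fun x => -conj (w2 x)) (S := fun _ => 0) (SP_sub (SP_dl H.sw1 H.sw2 H.sga _) (SP_conj H.sga))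
    (SP_neg (SP_conj H.sw1)) (SP_neg (SP_conj H.sw2)) SP_zero (by
      intro l
      refine Eq.trans ?_ (H.S2 k l)
      congr 1
      funext x
      simp only [dl, map_add, map_mul, map_intCast]
      ring) x
  rw [D1_neg (SP_conj H.sw1).1, D2_neg (SP_conj H.sw2).1, D1_const, D1_const,
    D1_conj H.sw1.1, D2_conj H.sw2.1] at h
  simp only [dl] at h
  linear_combination h

lemma relC1 (hI : S_IBP) (hU : S_FU) (H : Rels al be ga w1 w2 bc ec uc) (x : ℝ × ℝ) :
    conj (w1 x) = w1 x := by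
  have h0 := relC hI hU H (0, 0) x
  have h1 := relC hI hU H (1, 0) x
  push_cast at h0 h1
  linear_combination h0 - h1

lemma relC2 (hI : S_IBP) (hU : S_FU) (H : Rels al be ga w1 w2 bc ec uc) (x : ℝ × ℝ) :
    conj (w2 x) = w2 x := by
  have h0 := relC hI hU H (0, 0) x
  have h1 := relC hI hU H (0, 1) x
  push_cast at h0 h1
  linear_combination h0 - h1

lemma relC0 (hI : S_IBP) (hU : S_FU) (H : Rels al be ga w1 w2 bc ec uc) (x : ℝ × ℝ) :
    conj (ga x) = ga x + Complex.I * (D1 w1 x + D2 w2 x) := by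
  have h0 := relC hI hU H (0, 0) x
  have e1 : (fun x => conj (w1 x)) = w1 := funext (relC1 hI hU H)
  have e2 : (fun x => conj (w2 x)) = w2 := funext (relC2 hI hU H)
  have e3 : conj (D1 w1 x) = D1 w1 x := by
    have := congrFun (D1_conj H.sw1.1) x
    rw [e1] at this
    exact this.symm
  have e4 : conj (D2 w2 x) = D2 w2 x := by
    have := congrFun (D2_conj H.sw2.1) x
    rw [e2] at this
    exact this.symm
  rw [e3, e4] at h0
  push_cast at h0
  linear_combination -h0

lemma relD (hI : S_IBP) (hU : S_FU) (H : Rels al be ga w1 w2 bc ec uc) (k : ℤ × ℤ) (x : ℝ × ℝ) :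
    kap x * (k.1 : ℂ) ^ 2 + bc x * k.1 + ec x * k.2 + uc x - conj (uc x)
      - k.1 * conj (bc x) + Complex.I * conj (D1 bc x)
      - k.2 * conj (ec x) + Complex.I * conj (D2 ec x)
      - (k.1 : ℂ) ^ 2 * kap x + 2 * Complex.I * k.1 * D1 kap x + D1 (D1 kap) x = 0 := by
  have h := key hI hU k (P := fun x => dq bc ec uc k x - conj (uc x)) (Q := fun x => -conj (bc x))
    (R := fun x => -conj (ec x)) (S := fun x => -kap x)
    (SP_sub (SP_dq H.sbc H.sec H.suc _) (SP_conj H.suc))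
    (SP_neg (SP_conj H.sbc)) (SP_neg (SP_conj H.sec)) (SP_neg SP_kap) (by
      intro l
      refine Eq.trans ?_ (H.T2 k l)
      congr 1
      funext x
      simp only [dq, map_add, map_mul, map_intCast, map_pow, conj_kap]
      ring) x
  rw [D1_neg (SP_conj H.sbc).1, D2_neg (SP_conj H.sec).1, D1_neg SP_kap.1,
    D1_neg (SP_D1 SP_kap).1, D1_conj H.sbc.1, D2_conj H.sec.1] at h
  simp only [dq] at h
  linear_combination h

lemma relD1 (hI : S_IBP) (hU : S_FU) (H : Rels al be ga w1 w2 bc ec uc) (x : ℝ × ℝ) :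
    conj (bc x) = bc x + 2 * Complex.I * D1 kap x := by
  have h0 := relD hI hU H (0, 0) x
  have h1 := relD hI hU H (1, 0) x
  push_cast at h0 h1
  linear_combination h0 - h1

lemma relD2 (hI : S_IBP) (hU : S_FU) (H : Rels al be ga w1 w2 bc ec uc) (x : ℝ × ℝ) :
    conj (ec x) = ec x := by
  have h0 := relD hI hU H (0, 0) x
  have h1 := relD hI hU H (0, 1) x
  push_cast at h0 h1
  linear_combination h0 - h1

lemma relD3 (hI : S_IBP) (hU : S_FU) (H : Rels al be ga w1 w2 bc ec uc) (x : ℝ × ℝ) :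
    conj (uc x) = uc x - D1 (D1 kap) x + Complex.I * D1 bc x + Complex.I * D2 ec x := by
  have h0 := relD hI hU H (0, 0) x
  have e1 : (fun x => conj (bc x)) = fun x => bc x + (2 * Complex.I) * D1 kap x :=
    funext (relD1 hI hU H)
  have e2 : (fun x => conj (ec x)) = ec := funext (relD2 hI hU H)
  have e3 : conj (D1 bc x) = D1 bc x + 2 * Complex.I * D1 (D1 kap) x := by
    have := congrFun (D1_conj H.sbc.1) x
    rw [e1, D1_add H.sbc.1 (SP_cm _ (SP_D1 SP_kap)).1, D1_mul contDiff_const (SP_D1 SP_kap).1,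
      D1_const] at this
    rw [← this]
    ring
  have e4 : conj (D2 ec x) = D2 ec x := by
    have := congrFun (D2_conj H.sec.1) x
    rw [e2] at this
    exact this.symm
  rw [e3, e4] at h0
  push_cast at h0
  linear_combination -h0 + 2 * D1 (D1 kap) x * Complex.I_sq

/-- (I0) -/
lemma relI0 (hI : S_IBP) (hU : S_FU) (H : Rels al be ga w1 w2 bc ec uc) (x : ℝ × ℝ) :
    V1 x * D1 be x + V2 x * D2 be x = 0 := by
  have h := key hI hU (0, 0) (P := fun x => be x * conj (al x) - d1 al (0, 0) x * conj (be x))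
    (Q := fun x => be x * V1 x) (R := fun x => be x * V2 x) (S := fun x => 0)
    (SP_sub (SP_mul H.sbe (SP_conj H.sal)) (SP_mul (SP_d1 H.sal _) (SP_conj H.sbe)))
    (SP_mul H.sbe SP_V1) (SP_mul H.sbe SP_V2) SP_zero (by
      intro l
      refine Eq.trans ?_ (H.C2 (0, 0) l)
      congr 1
      funext x
      simp only [d1, map_add, map_mul, map_intCast, conj_V1, conj_V2]
      ring) x
  rw [D1_mul H.sbe.1 SP_V1.1, D2_mul H.sbe.1 SP_V2.1, D1_const, D1_const] at h
  simp only [d1, relA hI hU H, relB hI hU H, del] at h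
  push_cast at h
  linear_combination Complex.I * h + (V1 x * D1 be x + V2 x * D2 be x) * Complex.I_sq

/-- the commutation relation, pointwise -/
lemma relK (hI : S_IBP) (hU : S_FU) (H : Rels al be ga w1 w2 bc ec uc) (k : ℤ × ℤ) (x : ℝ × ℝ) :
    - Complex.I * (V1 x * (D1 kap x * (k.1 : ℂ) ^ 2 + D1 bc x * k.1 + D1 ec x * k.2 + D1 uc x)
      + V2 x * (D2 kap x * (k.1 : ℂ) ^ 2 + D2 bc x * k.1 + D2 ec x * k.2 + D2 uc x))
      + 2 * Complex.I * kap x * k.1 * (D1 V1 x * k.1 + D1 V2 x * k.2 + D1 al x)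
      + kap x * (D1 (D1 V1) x * k.1 + D1 (D1 V2) x * k.2 + D1 (D1 al) x)
      + Complex.I * (bc x * (D1 V1 x * k.1 + D1 V2 x * k.2 + D1 al x)
        + ec x * (D2 V1 x * k.1 + D2 V2 x * k.2 + D2 al x))
      - Complex.I * (w1 x * D1 be x + w2 x * D2 be x) = 0 := by
  have hd1 := SP_d1 H.sal k
  have hdl := SP_dl H.sw1 H.sw2 H.sga k
  have hdq := SP_dq H.sbc H.sec H.suc k
  have eB : ∀ x, conj (be x) = be x := relB hI hU H
  have eC1 : ∀ x, conj (w1 x) = w1 x := relC1 hI hU H
  have eC2 : ∀ x, conj (w2 x) = w2 x := relC2 hI hU H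
  have eD1 : ∀ x, conj (bc x) = bc x + 2 * Complex.I * D1 kap x := relD1 hI hU H
  have eD2 : ∀ x, conj (ec x) = ec x := relD2 hI hU H
  have hk1 := SP_D1 SP_kap
  have hbc' : SP (fun x => bc x + (2 * Complex.I) * D1 kap x) := SP_add H.sbc (SP_cm _ hk1)
  have h := key hI hU k
    (P := fun x => (dq bc ec uc k x * conj (al x) + be x * conj (ga x))
      - (d1 al k x * conj (uc x) + dl w1 w2 ga k x * be x))
    (Q := fun x => (dq bc ec uc k x * V1 x + be x * w1 x)
      + -(d1 al k x * (bc x + (2 * Complex.I) * D1 kap x)))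
    (R := fun x => (dq bc ec uc k x * V2 x + be x * w2 x) + -(d1 al k x * ec x))
    (S := fun x => -(d1 al k x * kap x))
    (SP_sub (SP_add (SP_mul hdq (SP_conj H.sal)) (SP_mul H.sbe (SP_conj H.sga)))
      (SP_add (SP_mul hd1 (SP_conj H.suc)) (SP_mul hdl H.sbe)))
    (SP_add (SP_add (SP_mul hdq SP_V1) (SP_mul H.sbe H.sw1)) (SP_neg (SP_mul hd1 hbc')))
    (SP_add (SP_add (SP_mul hdq SP_V2) (SP_mul H.sbe H.sw2)) (SP_neg (SP_mul hd1 H.sec)))
    (SP_neg (SP_mul hd1 SP_kap)) (by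
      intro l
      refine Eq.trans ?_ (H.C3 k l)
      congr 1
      funext x
      have e1 : conj (d1 al l x) = V1 x * l.1 + V2 x * l.2 + conj (al x) := by
        simp only [d1, map_add, map_mul, map_intCast, conj_V1, conj_V2]
      have e2 : conj (dl w1 w2 ga l x) = w1 x * l.1 + w2 x * l.2 + conj (ga x) := by
        simp only [dl, map_add, map_mul, map_intCast, eC1, eC2]
      have e3 : conj (dq bc ec uc l x) = kap x * (l.1 : ℂ) ^ 2 + (bc x + 2 * Complex.I * D1 kap x) * l.1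
          + ec x * l.2 + conj (uc x) := by
        simp only [dq, map_add, map_mul, map_intCast, map_pow, conj_kap, eD1, eD2]
      rw [e1, e2, e3, eB]
      ring) x
  -- derivatives of `d1`, `dq`
  have a1 : D1 (d1 al k) = fun x => D1 V1 x * k.1 + D1 V2 x * k.2 + D1 al x := by
    have e : d1 al k = fun x => (V1 x * k.1 + V2 x * k.2) + al x := rfl
    rw [e, D1_add (SP_add (SP_mc _ SP_V1) (SP_mc _ SP_V2)).1 H.sal.1,
      D1_add (SP_mc _ SP_V1).1 (SP_mc _ SP_V2).1, D1_mul SP_V1.1 contDiff_const,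
      D1_mul SP_V2.1 contDiff_const, D1_const, D1_const]
    funext x
    ring
  have a2 : D2 (d1 al k) = fun x => D2 V1 x * k.1 + D2 V2 x * k.2 + D2 al x := by
    have e : d1 al k = fun x => (V1 x * k.1 + V2 x * k.2) + al x := rfl
    rw [e, D2_add (SP_add (SP_mc _ SP_V1) (SP_mc _ SP_V2)).1 H.sal.1,
      D2_add (SP_mc _ SP_V1).1 (SP_mc _ SP_V2).1, D2_mul SP_V1.1 contDiff_const,
      D2_mul SP_V2.1 contDiff_const, D2_const, D2_const]
    funext x
    ring
  have a11 : D1 (D1 (d1 al k)) = fun x => D1 (D1 V1) x * k.1 + D1 (D1 V2) x * k.2 + D1 (D1 al) x := by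
    have h1 := SP_D1 SP_V1
    have h2 := SP_D1 SP_V2
    have h3 := SP_D1 H.sal
    rw [a1, D1_add (SP_add (SP_mc _ h1) (SP_mc _ h2)).1 h3.1,
      D1_add (SP_mc _ h1).1 (SP_mc _ h2).1, D1_mul h1.1 contDiff_const,
      D1_mul h2.1 contDiff_const, D1_const, D1_const]
    funext x
    ring
  have b1 : D1 (dq bc ec uc k) = fun x => D1 kap x * (k.1 : ℂ) ^ 2 + D1 bc x * k.1
      + D1 ec x * k.2 + D1 uc x := by
    have e : dq bc ec uc k = fun x => ((kap x * (k.1 : ℂ) ^ 2 + bc x * k.1) + ec x * k.2) + uc x := rfl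
    rw [e, D1_add (SP_add (SP_add (SP_mc _ SP_kap) (SP_mc _ H.sbc)) (SP_mc _ H.sec)).1 H.suc.1,
      D1_add (SP_add (SP_mc _ SP_kap) (SP_mc _ H.sbc)).1 (SP_mc _ H.sec).1,
      D1_add (SP_mc _ SP_kap).1 (SP_mc _ H.sbc).1, D1_mul SP_kap.1 contDiff_const,
      D1_mul H.sbc.1 contDiff_const, D1_mul H.sec.1 contDiff_const, D1_const, D1_const, D1_const]
    funext x
    ring
  have b2 : D2 (dq bc ec uc k) = fun x => D2 kap x * (k.1 : ℂ) ^ 2 + D2 bc x * k.1
      + D2 ec x * k.2 + D2 uc x := by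
    have e : dq bc ec uc k = fun x => ((kap x * (k.1 : ℂ) ^ 2 + bc x * k.1) + ec x * k.2) + uc x := rfl
    rw [e, D2_add (SP_add (SP_add (SP_mc _ SP_kap) (SP_mc _ H.sbc)) (SP_mc _ H.sec)).1 H.suc.1,
      D2_add (SP_add (SP_mc _ SP_kap) (SP_mc _ H.sbc)).1 (SP_mc _ H.sec).1,
      D2_add (SP_mc _ SP_kap).1 (SP_mc _ H.sbc).1, D2_mul SP_kap.1 contDiff_const,
      D2_mul H.sbc.1 contDiff_const, D2_mul H.sec.1 contDiff_const, D2_const, D2_const, D2_const]
    funext x
    ring
  have c1 : D1 (fun x => -(d1 al k x * kap x)) = fun x => -(D1 (d1 al k) x * kap x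
      + d1 al k x * D1 kap x) := by
    rw [D1_neg (SP_mul hd1 SP_kap).1, D1_mul hd1.1 SP_kap.1]
  have hd1' := SP_D1 hd1
  have c11 : D1 (D1 (fun x => -(d1 al k x * kap x))) = fun x => -(D1 (D1 (d1 al k)) x * kap x
      + 2 * D1 (d1 al k) x * D1 kap x + d1 al k x * D1 (D1 kap) x) := by
    rw [c1, D1_neg (SP_add (SP_mul hd1' SP_kap) (SP_mul hd1 hk1)).1,
      D1_add (SP_mul hd1' SP_kap).1 (SP_mul hd1 hk1).1, D1_mul hd1'.1 SP_kap.1, D1_mul hd1.1 hk1.1]
    funext x
    ring
  rw [c11, c1, D1_add (SP_add (SP_mul hdq SP_V1) (SP_mul H.sbe H.sw1)).1 (SP_neg (SP_mul hd1 hbc')).1,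
    D1_add (SP_mul hdq SP_V1).1 (SP_mul H.sbe H.sw1).1, D1_neg (SP_mul hd1 hbc').1,
    D1_mul hdq.1 SP_V1.1, D1_mul H.sbe.1 H.sw1.1, D1_mul hd1.1 hbc'.1,
    D1_add H.sbc.1 (SP_cm _ hk1).1, D1_mul contDiff_const hk1.1, D1_const,
    D2_add (SP_add (SP_mul hdq SP_V2) (SP_mul H.sbe H.sw2)).1 (SP_neg (SP_mul hd1 H.sec)).1,
    D2_add (SP_mul hdq SP_V2).1 (SP_mul H.sbe H.sw2).1, D2_neg (SP_mul hd1 H.sec).1,
    D2_mul hdq.1 SP_V2.1, D2_mul H.sbe.1 H.sw2.1, D2_mul hd1.1 H.sec.1,
    a11, a1, a2, b1, b2] at h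
  simp only [relA hI hU H, relC0 hI hU H, relD3 hI hU H, del, d1, dl, dq] at h
  linear_combination h - 2 * ((V1 x * k.1 + V2 x * k.2 + al x) * D1 (D1 kap) x
    + D1 kap x * (D1 V1 x * k.1 + D1 V2 x * k.2 + D1 al x)) * Complex.I_sq

end

lemma D1D1V1 : D1 (D1 V1) = fun x => ((Real.cos x.2 * deriv (deriv q) x.1 : ℝ) : ℂ) := by
  rw [D1V1]
  exact D1_prod Real.differentiable_cos ((contDiff_deriv q_smooth).differentiable (by simp))

lemma D1del : D1 del = fun x => ((Real.cos x.2 * deriv (deriv q) x.1 : ℝ) : ℂ) := by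
  have h := D1_prod (φ := fun y => 2 * Real.cos y) (ψ := fun _ => (1:ℝ)) (by fun_prop) (by fun_prop)
  have e : D1 (D2 V2) = fun _ => 0 := by
    have e1 : D2 V2 = fun x => (((2 * Real.cos x.2) * 1 : ℝ) : ℂ) := by
      rw [D2V2]
      funext x
      simp
    rw [e1, h]
    funext x
    simp
  have e2 : del = fun x => D1 V1 x + D2 V2 x := rfl
  rw [e2, D1_add (SP_D1 SP_V1).1 (SP_D2 SP_V2).1, D1D1V1, e]
  funext x
  simp

lemma D1D1del : D1 (D1 del) = fun x => ((Real.cos x.2 * deriv (deriv (deriv q)) x.1 : ℝ) : ℂ) := by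
  rw [D1del]
  exact D1_prod Real.differentiable_cos
    ((contDiff_deriv (contDiff_deriv q_smooth)).differentiable (by simp))

theorem t (hI : S_IBP) (hU : S_FU) : S_RED := by
  intro al be ga w1 w2 bc ec uc H
  refine ⟨fun x => (al x).re, fun x => (bc x).re, fun x => (ec x).re, fun x => (uc x).re,
    fun x => (be x).re, fun x => (w1 x).re, fun x => (w2 x).re, SP_re H.sal, SP_re H.sbc,
    SP_re H.sec, SP_re H.suc, SP_re H.sbe, SP_re H.sw1, SP_re H.sw2, ?_, ?_, ?_, ?_⟩
  · intro x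
    rw [D1_re H.sbe.1, D2_re H.sbe.1]
    have h := congrArg Complex.re (relI0 hI hU H x)
    simp only [V1, V2, Complex.add_re, Complex.re_ofReal_mul, Complex.zero_re] at h
    linarith
  · intro x
    rw [D1_re H.sec.1, D2_re H.sec.1]
    have h0 := relK hI hU H (0, 0) x
    have h1 := relK hI hU H (0, 1) x
    rw [D1V2, D1_const, D2V2] at h0 h1
    push_cast at h0 h1
    have h2 : V1 x * D1 ec x + V2 x * D2 ec x = ((2 * Real.cos x.2 : ℝ) : ℂ) * ec x := by
      push_cast
      linear_combination Complex.I * (h1 - h0) + (V1 x * D1 ec x + V2 x * D2 ec x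
        - 2 * Complex.cos x.2 * ec x) * Complex.I_sq
    have h := congrArg Complex.re h2
    simp only [V1, V2, Complex.add_re, Complex.re_ofReal_mul] at h
    linarith
  · intro x
    rw [D1_re H.sbc.1, D2_re H.sbc.1, D1_re H.sal.1]
    have h0 := relK hI hU H (1, 0) x
    have h1 := relK hI hU H (-1, 0) x
    rw [D1V2, D1_const, D1D1V1, D1V1, D2V1] at h0 h1
    have h2 : V1 x * D1 bc x + V2 x * D2 bc x = ((2 : ℝ) : ℂ) * (kap x * D1 al x)
        + (bc x * ((Real.cos x.2 * deriv q x.1 : ℝ) : ℂ)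
          + ec x * ((-(Real.sin x.2 * q x.1) : ℝ) : ℂ))
        - Complex.I * (kap x * ((Real.cos x.2 * deriv (deriv q) x.1 : ℝ) : ℂ)) := by
      push_cast at h0 h1 ⊢
      linear_combination (Complex.I / 2) * (h0 - h1) + (V1 x * D1 bc x + V2 x * D2 bc x
        - 2 * (kap x * D1 al x) - (bc x * (Complex.cos x.2 * ((deriv q x.1 : ℝ) : ℂ))
          + ec x * (-(Complex.sin x.2 * ((q x.1 : ℝ) : ℂ))))) * Complex.I_sq
    have h := congrArg Complex.re h2
    simp only [V1, V2, kap, Complex.add_re, Complex.sub_re, Complex.re_ofReal_mul,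
      Complex.mul_re (bc x), Complex.mul_re (ec x), Complex.ofReal_re, Complex.ofReal_im,
      mul_zero, sub_zero] at h
    have h3 : (Complex.I * (((Real.sin x.2 * f x.1 : ℝ) : ℂ)
        * ((Real.cos x.2 * deriv (deriv q) x.1 : ℝ) : ℂ))).re = 0 := by
      rw [← Complex.ofReal_mul]
      simp
    rw [h3] at h
    linarith
  · intro x
    rw [D1_re H.suc.1, D2_re H.suc.1, D1_re H.sal.1, D2_re H.sal.1, D1_re H.sbe.1, D2_re H.sbe.1]
    have h0 := relK hI hU H (0, 0) x
    push_cast at h0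
    have h2 : V1 x * D1 uc x + V2 x * D2 uc x = (bc x * D1 al x + ec x * D2 al x)
        - (w1 x * D1 be x + w2 x * D2 be x) - Complex.I * (kap x * D1 (D1 al) x) := by
      linear_combination Complex.I * h0 + (V1 x * D1 uc x + V2 x * D2 uc x
        - (bc x * D1 al x + ec x * D2 al x) + (w1 x * D1 be x + w2 x * D2 be x)) * Complex.I_sq
    have h := congrArg Complex.re h2
    -- imaginary parts
    have eA : (fun x => conj (al x)) = fun x => al x + Complex.I * del x := funext (relA hI hU H)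
    have eA1 : (fun x => conj (D1 al x)) = fun x => D1 al x + Complex.I * D1 del x := by
      have := D1_conj H.sal.1
      rw [eA, D1_add H.sal.1 (SP_cm _ SP_del).1, D1_mul contDiff_const SP_del.1, D1_const] at this
      rw [← this]
      funext x
      ring
    have eA2 : (fun x => conj (D1 (D1 al) x)) = fun x => D1 (D1 al) x + Complex.I * D1 (D1 del) x := by
      have := D1_conj (SP_D1 H.sal).1
      rw [eA1, D1_add (SP_D1 H.sal).1 (SP_cm _ (SP_D1 SP_del)).1,
        D1_mul contDiff_const (SP_D1 SP_del).1, D1_const] at this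
      rw [← this]
      funext x
      ring
    have i1 := congrArg Complex.im (congrFun eA1 x)
    have i2 := congrArg Complex.im (congrFun eA2 x)
    have i3 := congrArg Complex.im (relD1 hI hU H x)
    have i4 := congrArg Complex.im (relD2 hI hU H x)
    have i5 := congrArg Complex.im (relC1 hI hU H x)
    have i6 := congrArg Complex.im (relC2 hI hU H x)
    rw [D1del] at i1
    rw [D1D1del] at i2
    rw [D1kap] at i3
    simp only [Complex.conj_im, Complex.add_im, Complex.mul_im, Complex.I_re, Complex.I_im,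
      Complex.ofReal_re, Complex.ofReal_im, zero_mul, one_mul, zero_add] at i1 i2
    have i3' : (bc x).im = -(Real.sin x.2 * deriv f x.1) := by
      have : (2 * Complex.I * ((Real.sin x.2 * deriv f x.1 : ℝ) : ℂ)).im
          = 2 * (Real.sin x.2 * deriv f x.1) := by
        generalize Real.sin x.2 * deriv f x.1 = r
        simp
      rw [Complex.conj_im, Complex.add_im, this] at i3
      linarith
    rw [Complex.conj_im] at i4 i5 i6
    have i4' : (ec x).im = 0 := by linarith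
    have i5' : (w1 x).im = 0 := by linarith
    have i6' : (w2 x).im = 0 := by linarith
    have i1' : (D1 al x).im = -(Real.cos x.2 * deriv (deriv q) x.1) / 2 := by linarith
    have i2' : (D1 (D1 al) x).im = -(Real.cos x.2 * deriv (deriv (deriv q)) x.1) / 2 := by linarith
    have hdd : deriv (fun t => f t * deriv (deriv q) t) x.1
        = deriv f x.1 * deriv (deriv q) x.1 + f x.1 * deriv (deriv (deriv q)) x.1 :=
      deriv_fun_mul ((f_smooth.differentiable (by simp)) _)
        (((contDiff_deriv (contDiff_deriv q_smooth)).differentiable (by simp)) _)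
    rw [hdd]
    simp only [V1, V2, kap, Complex.add_re, Complex.sub_re, Complex.re_ofReal_mul,
      Complex.mul_re (bc x), Complex.mul_re (ec x), Complex.mul_re (w1 x), Complex.mul_re (w2 x),
      Complex.mul_re Complex.I, Complex.I_re, Complex.I_im, Complex.im_ofReal_mul,
      i1', i2', i3', i4', i5', i6', zero_mul, one_mul, sub_zero, zero_sub] at h
    linarith

end Pool.Agent.W628.QI
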