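import Pool.Agent.W545.QI.Stms

set_option autoImplicit false
open scoped ContDiff ComplexConjugate Real
open MeasureTheory Pool.Agent.W545.QI

namespace Pool.Agent.W628.QI

/-! ## calculus rules -/

section rules
variable {E : Type} [NormedAddCommGroup E] [NormedSpace ℝ E]

lemma D1_add {F G : ℝ × ℝ → E} (hF : ContDiff ℝ ∞ F) (hG : ContDiff ℝ ∞ G) :
    D1 (fun x => F x + G x) = fun x => D1 F x + D1 G x := by
  funext x
  unfold D1
  have h := ((hF.differentiable (by simp)) x).hasFDerivAt.add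
    ((hG.differentiable (by simp)) x).hasFDerivAt
  rw [HasFDerivAt.fderiv (f := fun x => F x + G x) h]
  rfl

lemma D2_add {F G : ℝ × ℝ → E} (hF : ContDiff ℝ ∞ F) (hG : ContDiff ℝ ∞ G) :
    D2 (fun x => F x + G x) = fun x => D2 F x + D2 G x := by
  funext x
  unfold D2
  have h := ((hF.differentiable (by simp)) x).hasFDerivAt.add
    ((hG.differentiable (by simp)) x).hasFDerivAt
  rw [HasFDerivAt.fderiv (f := fun x => F x + G x) h]
  rfl

lemma D1_contDiff {F : ℝ × ℝ → E} (hF : ContDiff ℝ ∞ F) : ContDiff ℝ ∞ (D1 F) := by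
  unfold D1
  exact (hF.fderiv_right (m := ∞) (by simp)).clm_apply contDiff_const

lemma D2_contDiff {F : ℝ × ℝ → E} (hF : ContDiff ℝ ∞ F) : ContDiff ℝ ∞ (D2 F) := by
  unfold D2
  exact (hF.fderiv_right (m := ∞) (by simp)).clm_apply contDiff_const

lemma Per_fderiv {F : ℝ × ℝ → E} (hF : Per F) (x : ℝ × ℝ) (n : ℤ × ℤ) :
    fderiv ℝ F (x.1 + 2 * π * n.1, x.2 + 2 * π * n.2) = fderiv ℝ F x := by
  have h : (fun y : ℝ × ℝ => F (y + (2 * π * n.1, 2 * π * n.2))) = F := by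
    funext y
    exact hF y n
  have h2 := fderiv_comp_add_right (𝕜 := ℝ) (f := F) (x := x)
    ((2 * π * n.1, 2 * π * n.2) : ℝ × ℝ)
  rw [h] at h2
  rw [h2]
  rfl

lemma SP_D1 {F : ℝ × ℝ → E} (hF : SP F) : SP (D1 F) := by
  refine ⟨D1_contDiff hF.1, fun x n => ?_⟩
  unfold D1
  rw [Per_fderiv hF.2]

lemma SP_D2 {F : ℝ × ℝ → E} (hF : SP F) : SP (D2 F) := by
  refine ⟨D2_contDiff hF.1, fun x n => ?_⟩
  unfold D2
  rw [Per_fderiv hF.2]

lemma SP_add {F G : ℝ × ℝ → E} (hF : SP F) (hG : SP G) : SP (fun x => F x + G x) :=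
  ⟨hF.1.add hG.1, fun x n => by
    show F _ + G _ = F x + G x
    rw [hF.2 x n, hG.2 x n]⟩

lemma SP_const (c : E) : SP (fun _ : ℝ × ℝ => c) := ⟨contDiff_const, fun _ _ => rfl⟩

end rules

lemma D1_mul {F G : ℝ × ℝ → ℂ} (hF : ContDiff ℝ ∞ F) (hG : ContDiff ℝ ∞ G) :
    D1 (fun x => F x * G x) = fun x => D1 F x * G x + F x * D1 G x := by
  funext x
  unfold D1
  have h := ((hF.differentiable (by simp)) x).hasFDerivAt.mul
    ((hG.differentiable (by simp)) x).hasFDerivAt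
  rw [HasFDerivAt.fderiv (f := fun x => F x * G x) h]
  simp
  ring

lemma D2_mul {F G : ℝ × ℝ → ℂ} (hF : ContDiff ℝ ∞ F) (hG : ContDiff ℝ ∞ G) :
    D2 (fun x => F x * G x) = fun x => D2 F x * G x + F x * D2 G x := by
  funext x
  unfold D2
  have h := ((hF.differentiable (by simp)) x).hasFDerivAt.mul
    ((hG.differentiable (by simp)) x).hasFDerivAt
  rw [HasFDerivAt.fderiv (f := fun x => F x * G x) h]
  simp
  ring

lemma D1_const (c : ℂ) : D1 (fun _ : ℝ × ℝ => c) = fun _ => 0 := by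
  funext x
  simp [D1]

lemma D2_const (c : ℂ) : D2 (fun _ : ℝ × ℝ => c) = fun _ => 0 := by
  funext x
  simp [D2]

lemma SP_mul {F G : ℝ × ℝ → ℂ} (hF : SP F) (hG : SP G) : SP (fun x => F x * G x) :=
  ⟨hF.1.mul hG.1, fun x n => by
    show F _ * G _ = F x * G x
    rw [hF.2 x n, hG.2 x n]⟩

lemma SP_conj {F : ℝ × ℝ → ℂ} (hF : SP F) : SP (fun x => conj (F x)) :=
  ⟨Complex.conjCLE.contDiff.comp hF.1, fun x n => by
    show conj (F _) = conj (F x)
    rw [hF.2 x n]⟩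

lemma SP_re {F : ℝ × ℝ → ℂ} (hF : SP F) : SP (fun x => (F x).re) :=
  ⟨Complex.reCLM.contDiff.comp hF.1, fun x n => by
    show (F _).re = (F x).re
    rw [hF.2 x n]⟩

lemma D1_re {F : ℝ × ℝ → ℂ} (hF : ContDiff ℝ ∞ F) (x : ℝ × ℝ) :
    D1 (fun x => (F x).re) x = (D1 F x).re := by
  unfold D1
  have h := Complex.reCLM.hasFDerivAt.comp x ((hF.differentiable (by simp)) x).hasFDerivAt
  rw [HasFDerivAt.fderiv (f := fun x => (F x).re) h]
  rfl

lemma D2_re {F : ℝ × ℝ → ℂ} (hF : ContDiff ℝ ∞ F) (x : ℝ × ℝ) :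
    D2 (fun x => (F x).re) x = (D2 F x).re := by
  unfold D2
  have h := Complex.reCLM.hasFDerivAt.comp x ((hF.differentiable (by simp)) x).hasFDerivAt
  rw [HasFDerivAt.fderiv (f := fun x => (F x).re) h]
  rfl

lemma D1_conj {F : ℝ × ℝ → ℂ} (hF : ContDiff ℝ ∞ F) :
    D1 (fun x => conj (F x)) = fun x => conj (D1 F x) := by
  funext x
  unfold D1
  have h := (Complex.conjCLE : ℂ ≃L[ℝ] ℂ).hasFDerivAt.comp x
    ((hF.differentiable (by simp)) x).hasFDerivAt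
  rw [HasFDerivAt.fderiv (f := fun x => conj (F x)) h]
  rfl

lemma D2_conj {F : ℝ × ℝ → ℂ} (hF : ContDiff ℝ ∞ F) :
    D2 (fun x => conj (F x)) = fun x => conj (D2 F x) := by
  funext x
  unfold D2
  have h := (Complex.conjCLE : ℂ ≃L[ℝ] ℂ).hasFDerivAt.comp x
    ((hF.differentiable (by simp)) x).hasFDerivAt
  rw [HasFDerivAt.fderiv (f := fun x => conj (F x)) h]
  rfl

/-- products of functions of the two variables -/
lemma D1_prod {φ ψ : ℝ → ℝ} (hφ : Differentiable ℝ φ) (hψ : Differentiable ℝ ψ) :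
    D1 (fun x : ℝ × ℝ => ((φ x.2 * ψ x.1 : ℝ) : ℂ)) = fun x => ((φ x.2 * deriv ψ x.1 : ℝ) : ℂ) := by
  funext x
  unfold D1
  have h1 := (hφ x.2).hasDerivAt.comp_hasFDerivAt x (hasFDerivAt_snd (𝕜 := ℝ) (p := x))
  have h2 := (hψ x.1).hasDerivAt.comp_hasFDerivAt x (hasFDerivAt_fst (𝕜 := ℝ) (p := x))
  have h := Complex.ofRealCLM.hasFDerivAt.comp x (h1.mul h2)
  rw [HasFDerivAt.fderiv (f := fun x : ℝ × ℝ => ((φ x.2 * ψ x.1 : ℝ) : ℂ)) h]
  simp

lemma D2_prod {φ ψ : ℝ → ℝ} (hφ : Differentiable ℝ φ) (hψ : Differentiable ℝ ψ) :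
    D2 (fun x : ℝ × ℝ => ((φ x.2 * ψ x.1 : ℝ) : ℂ)) = fun x => ((deriv φ x.2 * ψ x.1 : ℝ) : ℂ) := by
  funext x
  unfold D2
  have h1 := (hφ x.2).hasDerivAt.comp_hasFDerivAt x (hasFDerivAt_snd (𝕜 := ℝ) (p := x))
  have h2 := (hψ x.1).hasDerivAt.comp_hasFDerivAt x (hasFDerivAt_fst (𝕜 := ℝ) (p := x))
  have h := Complex.ofRealCLM.hasFDerivAt.comp x (h1.mul h2)
  rw [HasFDerivAt.fderiv (f := fun x : ℝ × ℝ => ((φ x.2 * ψ x.1 : ℝ) : ℂ)) h]
  simp
  ring

/-! ## exponentials and the integral -/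

lemma SP_ex (n : ℤ × ℤ) : SP (ex n) := by
  constructor
  · unfold ex
    have h1 : ContDiff ℝ ∞ (fun x : ℝ × ℝ => (x.1 : ℂ)) := Complex.ofRealCLM.contDiff.comp contDiff_fst
    have h2 : ContDiff ℝ ∞ (fun x : ℝ × ℝ => (x.2 : ℂ)) := Complex.ofRealCLM.contDiff.comp contDiff_snd
    exact (contDiff_const.mul ((contDiff_const.mul h1).add (contDiff_const.mul h2))).cexp
  · intro x m
    unfold ex
    have e : Complex.I * ((n.1 : ℂ) * ((x.1 + 2 * π * m.1 : ℝ) : ℂ)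
        + (n.2 : ℂ) * ((x.2 + 2 * π * m.2 : ℝ) : ℂ))
        = Complex.I * (n.1 * x.1 + n.2 * x.2) + ((n.1 * m.1 + n.2 * m.2 : ℤ) : ℂ) * (2 * π * Complex.I) := by
      push_cast
      ring
    rw [e]
    exact (Complex.exp_periodic.int_mul _) _

lemma hasFDerivAt_ex (n : ℤ × ℤ) (x : ℝ × ℝ) : HasFDerivAt (ex n)
    (ex n x • (Complex.I • ((n.1 : ℂ) • (Complex.ofRealCLM.comp (ContinuousLinearMap.fst ℝ ℝ ℝ))
      + (n.2 : ℂ) • (Complex.ofRealCLM.comp (ContinuousLinearMap.snd ℝ ℝ ℝ))))) x := by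
  have h1 : HasFDerivAt (fun x : ℝ × ℝ => (x.1 : ℂ))
      (Complex.ofRealCLM.comp (ContinuousLinearMap.fst ℝ ℝ ℝ)) x :=
    Complex.ofRealCLM.hasFDerivAt.comp x hasFDerivAt_fst
  have h2 : HasFDerivAt (fun x : ℝ × ℝ => (x.2 : ℂ))
      (Complex.ofRealCLM.comp (ContinuousLinearMap.snd ℝ ℝ ℝ)) x :=
    Complex.ofRealCLM.hasFDerivAt.comp x hasFDerivAt_snd
  exact (((h1.const_mul (n.1 : ℂ)).add (h2.const_mul (n.2 : ℂ))).const_mul Complex.I).cexp

lemma D1_ex (n : ℤ × ℤ) : D1 (ex n) = fun x => Complex.I * n.1 * ex n x := by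
  funext x
  unfold D1
  rw [(hasFDerivAt_ex n x).fderiv]
  simp
  ring

lemma D2_ex (n : ℤ × ℤ) : D2 (ex n) = fun x => Complex.I * n.2 * ex n x := by
  funext x
  unfold D2
  rw [(hasFDerivAt_ex n x).fderiv]
  simp
  ring

lemma TI_add {F G : ℝ × ℝ → ℂ} (hF : Continuous F) (hG : Continuous G) :
    TI (fun x => F x + G x) = TI F + TI G := by
  unfold TI
  have hin : ∀ {F : ℝ × ℝ → ℂ}, Continuous F → ∀ s, IntervalIntegrable (fun t => F (s, t)) volume 0 (2 * π) :=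
    fun hF s => (hF.comp (by fun_prop)).intervalIntegrable _ _
  have hout : ∀ {F : ℝ × ℝ → ℂ}, Continuous F →
      IntervalIntegrable (fun s => ∫ t in (0:ℝ)..(2 * π), F (s, t)) volume 0 (2 * π) := by
    intro F hF
    apply Continuous.intervalIntegrable
    exact intervalIntegral.continuous_parametric_intervalIntegral_of_continuous' (f := fun s t => F (s, t))
      (by unfold Function.uncurry; exact hF) _ _
  have e : ∀ s, ∫ t in (0:ℝ)..(2 * π), (F (s, t) + G (s, t))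
      = (∫ t in (0:ℝ)..(2 * π), F (s, t)) + ∫ t in (0:ℝ)..(2 * π), G (s, t) :=
    fun s => intervalIntegral.integral_add (hin hF s) (hin hG s)
  simp only [e]
  exact intervalIntegral.integral_add (hout hF) (hout hG)

lemma TI_const_mul (c : ℂ) (F : ℝ × ℝ → ℂ) : TI (fun x => c * F x) = c * TI F := by
  unfold TI
  simp only [intervalIntegral.integral_const_mul]

/-- the functional `F ↦ TI (F e_n)` -/
noncomputable def J (n : ℤ × ℤ) (F : ℝ × ℝ → ℂ) : ℂ := TI (fun x => F x * ex n x)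

lemma J_add (n : ℤ × ℤ) {F G : ℝ × ℝ → ℂ} (hF : SP F) (hG : SP G) :
    J n (fun x => F x + G x) = J n F + J n G := by
  unfold J
  have h := TI_add (F := fun x => F x * ex n x) (G := fun x => G x * ex n x)
    (hF.1.continuous.mul (SP_ex n).1.continuous) (hG.1.continuous.mul (SP_ex n).1.continuous)
  rw [← h]
  congr 1
  funext x
  ring

lemma J_mul (n : ℤ × ℤ) (c : ℂ) (F : ℝ × ℝ → ℂ) : J n (fun x => c * F x) = c * J n F := by
  unfold J
  rw [← TI_const_mul]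
  congr 1
  funext x
  ring

lemma J_D1 (hI : S_IBP) (n : ℤ × ℤ) {F : ℝ × ℝ → ℂ} (hF : SP F) :
    (n.1 : ℂ) * J n F = Complex.I * J n (D1 F) := by
  have h := (hI _ (SP_mul hF (SP_ex n))).1
  rw [D1_mul hF.1 (SP_ex n).1, D1_ex] at h
  have e : (fun x => D1 F x * ex n x + F x * (Complex.I * n.1 * ex n x))
      = fun x => (D1 F x * ex n x) + ((Complex.I * n.1) * (F x * ex n x)) := by
    funext x
    ring
  have h2 := TI_add (F := fun x => D1 F x * ex n x) (G := fun x => (Complex.I * n.1) * (F x * ex n x))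
    ((SP_D1 hF).1.continuous.mul (SP_ex n).1.continuous)
    (continuous_const.mul (hF.1.continuous.mul (SP_ex n).1.continuous))
  rw [e, h2, TI_const_mul] at h
  unfold J
  linear_combination (-Complex.I) * h + ((n.1 : ℂ) * TI (fun x => F x * ex n x)) * Complex.I_sq

lemma J_D2 (hI : S_IBP) (n : ℤ × ℤ) {F : ℝ × ℝ → ℂ} (hF : SP F) :
    (n.2 : ℂ) * J n F = Complex.I * J n (D2 F) := by
  have h := (hI _ (SP_mul hF (SP_ex n))).2
  rw [D2_mul hF.1 (SP_ex n).1, D2_ex] at h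
  have e : (fun x => D2 F x * ex n x + F x * (Complex.I * n.2 * ex n x))
      = fun x => (D2 F x * ex n x) + ((Complex.I * n.2) * (F x * ex n x)) := by
    funext x
    ring
  have h2 := TI_add (F := fun x => D2 F x * ex n x) (G := fun x => (Complex.I * n.2) * (F x * ex n x))
    ((SP_D2 hF).1.continuous.mul (SP_ex n).1.continuous)
    (continuous_const.mul (hF.1.continuous.mul (SP_ex n).1.continuous))
  rw [e, h2, TI_const_mul] at h
  unfold J
  linear_combination (-Complex.I) * h + ((n.2 : ℂ) * TI (fun x => F x * ex n x)) * Complex.I_sq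

/-- from the integral relations to a pointwise relation -/
lemma key (hI : S_IBP) (hU : S_FU) (k : ℤ × ℤ) {P Q R S : ℝ × ℝ → ℂ} (hP : SP P) (hQ : SP Q)
    (hR : SP R) (hS : SP S)
    (h : ∀ l : ℤ × ℤ, TI (fun x => (P x + Q x * l.1 + R x * l.2 + S x * (l.1 : ℂ) ^ 2)
      * ex (k - l) x) = 0) (x : ℝ × ℝ) :
    P x + (k.1 * Q x - Complex.I * D1 Q x) + (k.2 * R x - Complex.I * D2 R x)
      + ((k.1 : ℂ) ^ 2 * S x - 2 * Complex.I * k.1 * D1 S x - D1 (D1 S) x) = 0 := by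
  have hc : ∀ (c : ℂ) {F : ℝ × ℝ → ℂ}, SP F → SP (fun x => c * F x) :=
    fun c F hF => SP_mul (SP_const c) hF
  set G : ℝ × ℝ → ℂ := fun x => (P x + (((k.1 : ℂ) * Q x + (-Complex.I) * D1 Q x)
      + (((k.2 : ℂ) * R x + (-Complex.I) * D2 R x)
      + ((k.1 : ℂ) ^ 2 * S x + ((- 2 * Complex.I * k.1) * D1 S x + (-1) * D1 (D1 S) x))))) with hG
  have hS1 := SP_D1 hS
  have hS2 := SP_D1 hS1
  have hQ1 := SP_D1 hQ
  have hR1 := SP_D2 hR
  have h1 : SP (fun x => (k.1 : ℂ) * Q x + (-Complex.I) * D1 Q x) := SP_add (hc _ hQ) (hc _ hQ1)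
  have h2 : SP (fun x => (k.2 : ℂ) * R x + (-Complex.I) * D2 R x) := SP_add (hc _ hR) (hc _ hR1)
  have h3 : SP (fun x => (- 2 * Complex.I * k.1) * D1 S x + (-1) * D1 (D1 S) x) :=
    SP_add (hc _ hS1) (hc _ hS2)
  have h4 : SP (fun x => (k.1 : ℂ) ^ 2 * S x + ((- 2 * Complex.I * k.1) * D1 S x
      + (-1) * D1 (D1 S) x)) := SP_add (hc _ hS) h3
  have h5 : SP (fun x => ((k.2 : ℂ) * R x + (-Complex.I) * D2 R x)
      + ((k.1 : ℂ) ^ 2 * S x + ((- 2 * Complex.I * k.1) * D1 S x + (-1) * D1 (D1 S) x))) :=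
    SP_add h2 h4
  have h6 : SP (fun x => ((k.1 : ℂ) * Q x + (-Complex.I) * D1 Q x)
      + (((k.2 : ℂ) * R x + (-Complex.I) * D2 R x)
      + ((k.1 : ℂ) ^ 2 * S x + ((- 2 * Complex.I * k.1) * D1 S x + (-1) * D1 (D1 S) x)))) :=
    SP_add h1 h5
  have hGS : SP G := SP_add hP h6
  have hzero : ∀ n : ℤ × ℤ, TI (fun x => G x * ex n x) = 0 := by
    intro n
    have hn := h (k - n)
    have e1 : k - (k - n) = n := by abel
    rw [e1] at hn
    have e2 : (fun x => (P x + Q x * (((k - n).1 : ℤ) : ℂ) + R x * (((k - n).2 : ℤ) : ℂ)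
        + S x * (((k - n).1 : ℤ) : ℂ) ^ 2) * ex n x)
        = fun x => (P x + (((((k - n).1 : ℤ) : ℂ) * Q x) + (((((k - n).2 : ℤ) : ℂ) * R x)
          + ((((k - n).1 : ℤ) : ℂ) ^ 2 * S x)))) * ex n x := by
      funext x
      ring
    rw [e2] at hn
    change J n _ = 0 at hn
    rw [J_add n hP (SP_add (hc _ hQ) (SP_add (hc _ hR) (hc _ hS))),
      J_add n (hc _ hQ) (SP_add (hc _ hR) (hc _ hS)), J_add n (hc _ hR) (hc _ hS),
      J_mul, J_mul, J_mul] at hn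
    change J n G = 0
    rw [hG, J_add n hP h6, J_add n h1 h5, J_add n (hc _ hQ) (hc _ hQ1), J_add n h2 h4,
      J_add n (hc _ hR) (hc _ hR1), J_add n (hc _ hS) h3, J_add n (hc _ hS1) (hc _ hS2)]
    simp only [J_mul]
    have r1 := J_D1 hI n hQ
    have r2 := J_D2 hI n hR
    have r3 := J_D1 hI n hS
    have r4 := J_D1 hI n hS1
    simp only [Prod.fst_sub, Prod.snd_sub, Int.cast_sub] at hn
    linear_combination hn + r1 + r2 + (2 * k.1 - n.1) * r3 - Complex.I * r4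
      - J n (D1 (D1 S)) * Complex.I_sq
  have hx := hU G hGS.1.continuous hGS.2 hzero x
  rw [hG] at hx
  linear_combination hx

end Pool.Agent.W628.QI
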